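import Pool.Agent.helper96.PP2.SpecC

set_option autoImplicit false

namespace Pool.Agent.PP2

open Topology Matrix

lemma CTM_closed {R : Type} [CommRing R] [TopologicalSpace R] [IsTopologicalRing R]
    [Invertible (2 : R)] (Γ : Subgroup (GL (Fin 2) R)) (n : ℕ) :
    IsClosed (Lc Γ n : Set (M2 R)) := by
  cases n with
  | zero => exact AddSubgroup.isClosed_topologicalClosure _
  | succ n => exact AddSubgroup.isClosed_topologicalClosure _

/-- the ring of scalars preserving an additive group -/
def CTM_ring {R : Type} [CommRing R] (N : AddSubgroup (M2 R)) : Subring R where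
  carrier := {c | ∀ X ∈ N, c • X ∈ N}
  mul_mem' := by
    intro a b ha hb X hX
    rw [mul_smul]
    exact ha _ (hb X hX)
  one_mem' := by
    intro X hX
    rw [one_smul]
    exact hX
  add_mem' := by
    intro a b ha hb X hX
    rw [add_smul]
    exact N.add_mem (ha X hX) (hb X hX)
  zero_mem' := by
    intro X hX
    rw [zero_smul]
    exact N.zero_mem
  neg_mem' := by
    intro a ha X hX
    rw [neg_smul]
    exact N.neg_mem (ha X hX)

lemma CTM_ring_closed {R : Type} [CommRing R] [TopologicalSpace R] [IsTopologicalRing R]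
    (N : AddSubgroup (M2 R)) (hN : IsClosed (N : Set (M2 R))) :
    IsClosed (CTM_ring N : Set R) := by
  have h : (CTM_ring N : Set R) = ⋂ X ∈ (N : Set (M2 R)), (fun c : R => c • X) ⁻¹' (N : Set (M2 R)) := by
    ext c
    rw [Set.mem_iInter₂]
    exact Iff.rfl
  rw [h]
  refine isClosed_biInter fun X _ => hN.preimage ?_
  exact continuous_id.smul continuous_const

theorem CTM_row (hHAV : HAV_stmt) (hLCM : LCM_stmt) : CTM_stmt := by
  intro p R _ _ _ _ _ _ J hp hp2 hJ Γ hΓ
  refine ⟨Subring.isClosed_topologicalClosure _, ?_, ?_⟩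
  · intro X hX Y hY
    exact Subring.le_topologicalClosure _ (Subring.subset_closure ⟨X, hX, Y, hY, rfl⟩)
  · intro c hc n
    have hle : Ct Γ ≤ CTM_ring (Lc Γ n) := by
      refine Subring.topologicalClosure_minimal _ ?_ (CTM_ring_closed _ (CTM_closed Γ n))
      rw [Subring.closure_le]
      rintro c ⟨X, hX, Y, hY, rfl⟩ Z hZ
      exact hLCM p R J hp hp2 hJ Γ hΓ n X hX Y hY Z hZ
    exact hle hc

end Pool.Agent.PP2
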